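import Pool.Agent.L5helper96.Cub.Net

/-!
CUBIC, part N2: two global bits enforce a congruence mod 4; the full adder, the half adder and
the equality of two bits.
-/

set_option autoImplicit false

namespace L5helper96.Cub

open Finset MvPolynomial L5lead.NC L5helper34.NC

theorem I_zpow_sum {V : Type} [DecidableEq V] (F : Finset V) (m : V → ℤ) (x : V → Bool) (u : ℂ)
    (hu : u ≠ 0) :
    (∏ v ∈ F, if x v then u ^ m v else 1) = u ^ (∑ v ∈ F, (if x v then m v else 0)) := by
  induction F using Finset.induction_on with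
  | empty => simp
  | insert a s ha ih =>
    rw [prod_insert ha, sum_insert ha, zpow_add₀ hu, ih]
    by_cases h : x a = true
    · rw [if_pos h, if_pos h]
    · rw [if_neg h, if_neg h, zpow_zero]

theorem four_filter (s : ℤ) :
    4 * (if (4 : ℤ) ∣ s then (1 : ℂ) else 0) =
      (1 + 1 * Complex.I ^ s) * (1 + 1 * (-1 : ℂ) ^ s) := by
  have h4 : Complex.I ^ (4 : ℤ) = 1 := by
    rw [show (4 : ℤ) = ((4 : ℕ) : ℤ) from rfl, zpow_natCast]
    exact Complex.I_pow_four
  have hm : (-1 : ℂ) ^ (4 : ℤ) = 1 := by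
    rw [show (4 : ℤ) = ((4 : ℕ) : ℤ) from rfl, zpow_natCast]
    norm_num
  obtain ⟨k, r, hr, rfl⟩ : ∃ (k : ℤ) (r : ℕ), r < 4 ∧ s = 4 * k + r := by
    refine ⟨s / 4, (s % 4).toNat, ?_, ?_⟩
    · have := Int.emod_lt_of_pos s (show (0 : ℤ) < 4 by norm_num)
      have h0 := Int.emod_nonneg s (show (4 : ℤ) ≠ 0 by norm_num)
      omega
    · have h0 := Int.emod_nonneg s (show (4 : ℤ) ≠ 0 by norm_num)
      have := Int.emod_add_mul_ediv s 4
      omega
  rw [zpow_add₀ Complex.I_ne_zero, zpow_add₀ (by norm_num : (-1 : ℂ) ≠ 0), zpow_mul, zpow_mul,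
    h4, hm, one_zpow, one_mul, zpow_natCast, zpow_natCast]
  have hd : (4 : ℤ) ∣ 4 * k + (r : ℤ) ↔ r = 0 := by omega
  interval_cases r
  · rw [if_pos (hd.2 rfl)]
    norm_num
  · rw [if_neg (fun h => absurd (hd.1 h) (by norm_num))]
    norm_num
  · rw [if_neg (fun h => absurd (hd.1 h) (by norm_num))]
    rw [Complex.I_sq]
    norm_num
  · rw [if_neg (fun h => absurd (hd.1 h) (by norm_num))]
    norm_num

/-- two global bits enforce a congruence mod 4 -/
theorem Net.div4 (hG : GateStmt) {V : Type} [DecidableEq V] (F : Finset V) (m : V → ℤ) :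
    Net V (fun x => if (4 : ℤ) ∣ ∑ v ∈ F, (if x v then m v else 0) then 1 else 0)
      (4 * F.card + 4) := by
  have h1 := Net.clo hG F (fun v => Complex.I ^ m v) (fun v => zpow_ne_zero _ Complex.I_ne_zero) 1
  have h2 := Net.clo hG F (fun v => (-1 : ℂ) ^ m v)
    (fun v => zpow_ne_zero _ (by norm_num)) 1
  refine Net.smul 4 (by norm_num) ((h1.mul h2).congr (fun x => ?_) (by ring))
  rw [I_zpow_sum F m x _ Complex.I_ne_zero, I_zpow_sum F m x _ (by norm_num), four_filter]

/-- the full adder `x0 + x1 + x2 = x3 + 2 x4` -/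
theorem Net.fa (hG : GateStmt) : Net (Fin 5) (fun x =>
    if (x 0).toNat + (x 1).toNat + (x 2).toNat = (x 3).toNat + 2 * (x 4).toNat then 1 else 0)
      24 := by
  refine (Net.div4 hG (univ : Finset (Fin 5)) ![1, 1, 1, -1, -2]).congr (fun x => ?_) (by simp)
  congr 1
  rw [Fin.sum_univ_five]
  rcases x 0 <;> rcases x 1 <;> rcases x 2 <;> rcases x 3 <;> rcases x 4 <;> simp

/-- the half adder `x0 + x1 = x2 + 2 x3` -/
theorem Net.ha (hG : GateStmt) : Net (Fin 4) (fun x =>
    if (x 0).toNat + (x 1).toNat = (x 2).toNat + 2 * (x 3).toNat then 1 else 0) 20 := by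
  refine (Net.div4 hG (univ : Finset (Fin 4)) ![1, 1, -1, -2]).congr (fun x => ?_) (by simp)
  congr 1
  rw [Fin.sum_univ_four]
  rcases x 0 <;> rcases x 1 <;> rcases x 2 <;> rcases x 3 <;> simp

/-- equality of two bits -/
theorem Net.eq (hG : GateStmt) : Net (Fin 2) (fun x => if x 0 = x 1 then 1 else 0) 12 := by
  refine (Net.div4 hG (univ : Finset (Fin 2)) ![1, -1]).congr (fun x => ?_) (by simp)
  congr 1
  rw [Fin.sum_univ_two]
  rcases x 0 <;> rcases x 1 <;> simp

end L5helper96.Cub
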