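import Pool.Agent.L5helper59.NC.Forms
import Pool.Agent.L5helper11.DC.C

/-!
# The total rank of the coefficient matrices

A square matrix `A` of any size of affine forms over an infinite field, such that the ranks of the
coefficient matrices of the variables add up to at most `R`, where `R ≥ 1`, has the same
determinant as an `R × R` matrix of affine forms. So every lower bound for the size of (border)
determinantal representations of the permanent holds for the total rank of the coefficient matrices
of the variables too, whatever the sizes of the matrices are.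
-/

set_option autoImplicit false

namespace L5helper11.Cub

open Finset MvPolynomial Filter Topology L5helper59.DC

section field

variable {F : Type*} [Field F]

/-- rank factorization -/
theorem rank_fac {n : ℕ} (C : Matrix (Fin n) (Fin n) F) :
    ∃ (U : Matrix (Fin n) (Fin C.rank) F) (V : Matrix (Fin C.rank) (Fin n) F), C = U * V := by
  classical
  let S := LinearMap.range C.mulVecLin
  let f : S ≃ₗ[F] (Fin C.rank → F) := (Module.finBasis F S).equivFun
  let a : (Fin C.rank → F) →ₗ[F] (Fin n → F) := S.subtype ∘ₗ f.symm.toLinearMap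
  let b : (Fin n → F) →ₗ[F] (Fin C.rank → F) := f.toLinearMap ∘ₗ (C.mulVecLin.rangeRestrict)
  refine ⟨LinearMap.toMatrix' a, LinearMap.toMatrix' b, ?_⟩
  rw [← LinearMap.toMatrix'_comp]
  have hab : a ∘ₗ b = C.mulVecLin := by
    ext1
    ext1
    simp only [a, b, LinearMap.comp_apply, LinearEquiv.coe_coe, LinearEquiv.symm_apply_apply]
    rfl
  rw [hab, ← Matrix.toLin'_apply', LinearMap.toMatrix'_toLin']

/-- compression of a determinant (as `Pool.Agent.L5helper59.Per.compress`, over every field) -/
theorem compress {E : Type*} [Fintype E] [DecidableEq E] {n : ℕ}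
    (B : Matrix (Fin n) (Fin n) F) (C : E → Matrix (Fin n) (Fin n) F)
    (x₀ : E → F) (h0 : (B + ∑ e, x₀ e • C e).det ≠ 0) :
    ∃ W : Matrix (Σ e, Fin (C e).rank) (Σ e, Fin (C e).rank) F, ∀ x : E → F,
      (B + ∑ e, x e • C e).det = (B + ∑ e, x₀ e • C e).det *
        (1 + Matrix.diagonal (fun s : Σ e, Fin (C e).rank => x s.1 - x₀ s.1) * W).det := by
  classical
  choose U V hUV using fun e => rank_fac (C e)
  have hUV' : ∀ e i j, C e i j = ∑ s, U e i s * V e s j := by
    intro e i j
    have := congrFun (congrFun (hUV e) i) j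
    rwa [Matrix.mul_apply] at this
  set D := B + ∑ e, x₀ e • C e with hD
  let UU : Matrix (Fin n) (Σ e, Fin (C e).rank) F := fun i s => U s.1 i s.2
  let VV : Matrix (Σ e, Fin (C e).rank) (Fin n) F := fun s j => V s.1 s.2 j
  have hu : IsUnit D.det := isUnit_iff_ne_zero.2 h0
  refine ⟨VV * (D⁻¹ * UU), fun x => ?_⟩
  have h1 : B + ∑ e, x e • C e =
      D * (1 + (D⁻¹ * UU) * (Matrix.diagonal (fun s : Σ e, Fin (C e).rank => x s.1 - x₀ s.1) * VV)) := by
    rw [Matrix.mul_add, Matrix.mul_one, Matrix.mul_assoc, ← Matrix.mul_assoc D,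
      Matrix.mul_nonsing_inv _ hu, Matrix.one_mul]
    have h2 : UU * (Matrix.diagonal (fun s : Σ e, Fin (C e).rank => x s.1 - x₀ s.1) * VV) =
        ∑ e, (x e - x₀ e) • C e := by
      ext i j
      rw [Matrix.mul_apply, Matrix.sum_apply, Fintype.sum_sigma]
      refine Finset.sum_congr rfl fun e _ => ?_
      rw [Matrix.smul_apply, hUV' e i j, smul_eq_mul, Finset.mul_sum]
      refine Finset.sum_congr rfl fun s _ => ?_
      rw [Matrix.diagonal_mul]
      simp only [UU, VV]
      ring
    rw [h2, hD, add_assoc, ← Finset.sum_add_distrib]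
    congr 1
    refine Finset.sum_congr rfl fun e _ => ?_
    rw [← add_smul]
    congr 1
    ring
  rw [h1, Matrix.det_mul, Matrix.det_one_add_mul_comm, Matrix.mul_assoc]

set_option linter.unusedSectionVars false

variable [Infinite F] {σ : Type*} [Fintype σ] [DecidableEq σ]

/-- the matrix of affine forms at a point -/
theorem eval_affine_matrix {n : ℕ} (A : Matrix (Fin n) (Fin n) (MvPolynomial σ F))
    (hA : ∀ i j, (A i j).totalDegree ≤ 1) (x : σ → F) :
    A.map (eval x) = A.map (coeff 0) + ∑ v, x v • A.map (coeff (Finsupp.single v 1)) := by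
  ext i j
  rw [Matrix.add_apply, Matrix.sum_apply, Matrix.map_apply, Matrix.map_apply]
  conv_lhs => rw [Pool.Agent.L5helper11.DC.affine_eq (A i j) (hA i j)]
  rw [map_add, eval_C, map_sum]
  congr 1
  refine Finset.sum_congr rfl fun v _ => ?_
  rw [map_mul, eval_C, eval_X, Matrix.smul_apply, Matrix.map_apply, smul_eq_mul, mul_comm]

/-- **Compression.** A determinant of affine forms of any size with total rank of the coefficient
matrices at most `R` is a determinant of affine forms of size `R`. -/
theorem compress_poly {n R : ℕ} (hR : 1 ≤ R) (A : Matrix (Fin n) (Fin n) (MvPolynomial σ F))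
    (hA : ∀ i j, (A i j).totalDegree ≤ 1)
    (hrank : ∑ v, (A.map (coeff (Finsupp.single v 1))).rank ≤ R) :
    ∃ B : Matrix (Fin R) (Fin R) (MvPolynomial σ F), (∀ i j, (B i j).totalDegree ≤ 1) ∧
      B.det = A.det := by
  classical
  have i0 : Fin R := ⟨0, hR⟩
  have : Nonempty (Fin R) := ⟨i0⟩
  by_cases h0 : A.det = 0
  · refine ⟨0, fun i j => ?_, ?_⟩
    · rw [Matrix.zero_apply, totalDegree_zero]
      exact Nat.zero_le _
    · rw [h0, Matrix.det_zero]
  obtain ⟨x₀, hx₀⟩ : ∃ x₀, eval x₀ A.det ≠ 0 := by
    by_contra hcon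
    push Not at hcon
    exact h0 (MvPolynomial.funext fun z => by rw [hcon z, map_zero])
  have hev : ∀ x : σ → F, eval x A.det =
      (A.map (coeff 0) + ∑ v, x v • A.map (coeff (Finsupp.single v 1))).det := by
    intro x
    rw [← eval_affine_matrix A hA x]
    exact RingHom.map_det (eval x) A
  obtain ⟨W, hW⟩ := compress (A.map (coeff 0)) (fun v => A.map (coeff (Finsupp.single v 1))) x₀
    (by rw [← hev]; exact hx₀)
  set d : F := eval x₀ A.det with hd
  rw [← hev, ← hd] at hW
  -- the matrix
  let ρ := Σ v : σ, Fin ((A.map (coeff (Finsupp.single v 1))).rank)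
  let B₁ : Matrix ρ ρ (MvPolynomial σ F) :=
    1 + Matrix.diagonal (fun s : ρ => X s.1 - C (x₀ s.1)) * W.map C
  have hB₁ : ∀ i j, (B₁ i j).totalDegree ≤ 1 := by
    intro i j
    change ((1 : Matrix ρ ρ (MvPolynomial σ F)) i j +
      (Matrix.diagonal (fun s : ρ => X s.1 - C (x₀ s.1)) * W.map C :
        Matrix ρ ρ (MvPolynomial σ F)) i j).totalDegree ≤ 1
    refine (totalDegree_add _ _).trans (max_le ?_ ?_)
    · rw [Matrix.one_apply]
      split_ifs
      · rw [totalDegree_one]
        exact Nat.zero_le _
      · rw [totalDegree_zero]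
        exact Nat.zero_le _
    · rw [Matrix.diagonal_mul, Matrix.map_apply]
      refine (totalDegree_mul _ _).trans ?_
      rw [totalDegree_C, add_zero]
      refine (totalDegree_sub _ _).trans (max_le ?_ ?_)
      · rw [totalDegree_X]
      · rw [totalDegree_C]
        exact Nat.zero_le _
  have hdet₁ : C d * B₁.det = A.det := by
    refine MvPolynomial.funext fun x => ?_
    rw [map_mul, eval_C, hev x, hW x]
    congr 1
    rw [RingHom.map_det]
    congr 1
    ext i j
    change eval x (((1 : Matrix ρ ρ (MvPolynomial σ F)) +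
      Matrix.diagonal (fun s : ρ => X s.1 - C (x₀ s.1)) * W.map C :
        Matrix ρ ρ (MvPolynomial σ F)) i j) = _
    rw [Matrix.add_apply, Matrix.add_apply, Matrix.diagonal_mul, Matrix.diagonal_mul, map_add,
      map_mul, Matrix.map_apply, map_sub, eval_X, eval_C, eval_C]
    congr 1
    rw [Matrix.one_apply, Matrix.one_apply]
    split_ifs
    · exact map_one _
    · exact map_zero _
  have hcard : Fintype.card ρ ≤ R := by
    rw [Fintype.card_sigma]
    simpa using hrank
  have hcard2 : Fintype.card (ρ ⊕ Fin (R - Fintype.card ρ)) = Fintype.card (Fin R) := by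
    rw [Fintype.card_sum, Fintype.card_fin, Fintype.card_fin]
    omega
  let e : ρ ⊕ Fin (R - Fintype.card ρ) ≃ Fin R := Fintype.equivOfCardEq hcard2
  let B₂ : Matrix (ρ ⊕ Fin (R - Fintype.card ρ)) (ρ ⊕ Fin (R - Fintype.card ρ))
    (MvPolynomial σ F) := Matrix.fromBlocks B₁ 0 0 1
  have hB₂ : ∀ i j, (B₂ i j).totalDegree ≤ 1 := by
    rintro (i | i) (j | j)
    · exact hB₁ i j
    · change (0 : MvPolynomial σ F).totalDegree ≤ 1
      rw [totalDegree_zero]
      exact Nat.zero_le _
    · change (0 : MvPolynomial σ F).totalDegree ≤ 1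
      rw [totalDegree_zero]
      exact Nat.zero_le _
    · change ((1 : Matrix (Fin (R - Fintype.card ρ)) (Fin (R - Fintype.card ρ))
        (MvPolynomial σ F)) i j).totalDegree ≤ 1
      rw [Matrix.one_apply]
      split_ifs
      · rw [totalDegree_one]
        exact Nat.zero_le _
      · rw [totalDegree_zero]
        exact Nat.zero_le _
  have hdet₂ : B₂.det = B₁.det := by
    rw [Matrix.det_fromBlocks_zero₂₁, Matrix.det_one, mul_one]
  let B₃ : Matrix (Fin R) (Fin R) (MvPolynomial σ F) := B₂.submatrix e.symm e.symm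
  have hdet₃ : B₃.det = B₁.det := by
    rw [← hdet₂]
    exact Matrix.det_submatrix_equiv_self e.symm B₂
  refine ⟨B₃.updateRow i0 ((C d : MvPolynomial σ F) • B₃ i0), fun i j => ?_, ?_⟩
  · rw [Matrix.updateRow_apply]
    split_ifs
    · rw [Pi.smul_apply, smul_eq_mul]
      refine (totalDegree_mul _ _).trans ?_
      rw [totalDegree_C, zero_add]
      exact hB₂ _ _
    · exact hB₂ _ _
  · rw [Matrix.det_updateRow_smul, Matrix.updateRow_eq_self, hdet₃]
    exact hdet₁

end field

/-- the permanent is not constant -/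
theorem perm_ne_C {m : ℕ} (hm : 1 ≤ m) {F : Type*} [Field F] (c : F) :
    Matrix.permanent (Matrix.of fun i j : Fin m =>
      (X (i, j) : MvPolynomial (Fin m × Fin m) F)) ≠ C c := by
  intro h
  have h1 := congrArg (eval (fun _ => (0 : F))) h
  have h2 := congrArg (eval (fun v : Fin m × Fin m => if v.1 = v.2 then (1 : F) else 0)) h
  rw [eval_C] at h1 h2
  have h3 : eval (fun _ => (0 : F)) (Matrix.permanent (Matrix.of fun i j : Fin m =>
      (X (i, j) : MvPolynomial (Fin m × Fin m) F))) = 0 := by
    unfold Matrix.permanent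
    rw [map_sum]
    refine Finset.sum_eq_zero fun σ _ => ?_
    rw [map_prod]
    exact Finset.prod_eq_zero (Finset.mem_univ ⟨0, hm⟩) (by simp)
  have h4 : eval (fun v : Fin m × Fin m => if v.1 = v.2 then (1 : F) else 0)
      (Matrix.permanent (Matrix.of fun i j : Fin m =>
        (X (i, j) : MvPolynomial (Fin m × Fin m) F))) = 1 := by
    unfold Matrix.permanent
    rw [map_sum, Finset.sum_eq_single 1]
    · rw [map_prod]
      refine Finset.prod_eq_one fun i _ => ?_
      simp
    · intro σ _ hσ
      obtain ⟨i, hi⟩ : ∃ i, σ i ≠ i := by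
        by_contra hcon
        push Not at hcon
        exact hσ (Equiv.ext hcon)
      rw [map_prod]
      refine Finset.prod_eq_zero (Finset.mem_univ i) ?_
      simp [hi]
    · intro h
      exact absurd (Finset.mem_univ _) h
  rw [h3] at h1
  rw [h4] at h2
  rw [← h1] at h2
  exact one_ne_zero h2

/-- total rank zero: the determinant is constant -/
theorem det_eq_C {n : ℕ} {F : Type*} [Field F] {σ : Type*} [Fintype σ] [DecidableEq σ]
    (A : Matrix (Fin n) (Fin n) (MvPolynomial σ F)) (hA : ∀ i j, (A i j).totalDegree ≤ 1)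
    (hrank : ∑ v, (A.map (coeff (Finsupp.single v 1))).rank = 0) :
    A.det = C (A.map (coeff 0)).det := by
  have h1 : ∀ v, A.map (coeff (Finsupp.single v 1)) = 0 := by
    intro v
    have h2 := (Finset.sum_eq_zero_iff.1 hrank) v (Finset.mem_univ v)
    by_contra hne
    have h3 : LinearMap.range (A.map (coeff (Finsupp.single v 1))).mulVecLin = ⊥ := by
      rw [← Submodule.finrank_eq_zero]
      exact h2
    rw [LinearMap.range_eq_bot] at h3
    apply hne
    rw [← Matrix.toLin'_apply'] at h3
    exact (LinearEquiv.map_eq_zero_iff Matrix.toLin').1 h3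
  have h2 : A = (A.map (coeff 0)).map C := by
    ext i j
    rw [Matrix.map_apply, Matrix.map_apply]
    conv_lhs => rw [Pool.Agent.L5helper11.DC.affine_eq (A i j) (hA i j)]
    rw [Finset.sum_eq_zero, add_zero]
    intro v _
    have h3 : coeff (Finsupp.single v 1) (A i j) = 0 := by
      have := congrFun (congrFun (h1 v) i) j
      rwa [Matrix.map_apply] at this
    rw [h3, C_0, zero_mul]
  conv_lhs => rw [h2]
  exact (RingHom.map_det C _).symm

/-- **The total rank in border representations of the permanent by matrices of any sizes.** -/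
theorem rank_bound_of {lb : ℕ → ℝ} (hB : ∀ m M : ℕ, 1 ≤ m → BorderRep m M → lb m ≤ (M : ℝ) + 1)
    (m R : ℕ) (hm : 1 ≤ m) (n : ℕ → ℕ)
    (A : ∀ k, Matrix (Fin (n k)) (Fin (n k)) (MvPolynomial (Fin m × Fin m) ℂ))
    (hA : ∀ k i j, (A k i j).totalDegree ≤ 1)
    (hR : ∀ k, ∑ v, ((A k).map (coeff (Finsupp.single v 1))).rank ≤ R)
    (hlim : ∀ d, Tendsto (fun k => coeff d (A k).det) atTop
      (𝓝 (coeff d (Matrix.permanent (Matrix.of fun i j : Fin m =>
        (X (i, j) : MvPolynomial (Fin m × Fin m) ℂ)))))) :
    lb m ≤ R := by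
  classical
  rcases Nat.eq_zero_or_pos R with h0 | hpos
  · exfalso
    have h1 : ∀ k, (A k).det = C ((A k).map (coeff 0)).det := fun k =>
      det_eq_C (A k) (hA k) (Nat.le_zero.1 ((hR k).trans h0.le))
    refine perm_ne_C (F := ℂ) hm (coeff 0 (Matrix.permanent (Matrix.of fun i j : Fin m =>
        (X (i, j) : MvPolynomial (Fin m × Fin m) ℂ)))) ?_
    ext d
    rw [coeff_C]
    split_ifs with hd
    · rw [hd]
    · have h2 := hlim d
      have h3 : (fun k => coeff d (A k).det) = fun _ => (0 : ℂ) := by
        funext k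
        rw [h1 k, coeff_C, if_neg hd]
      rw [h3] at h2
      exact (tendsto_nhds_unique h2 tendsto_const_nhds)
  · choose B hBdeg hBdet using fun k => compress_poly hpos (A k) (hA k) (hR k)
    refine L5helper59.NC.border_bound_of hB m R hm B hBdeg fun d => ?_
    simp only [hBdet]
    exact hlim d

/-- **The total rank in representations of the permanent over fields of characteristic zero.** -/
theorem field_rank_bound_of {lb : ℕ → ℝ}
    (hB : ∀ m M : ℕ, 1 ≤ m → BorderRep m M → lb m ≤ (M : ℝ) + 1)
    (m n : ℕ) (hm : 1 ≤ m) {F : Type*} [Field F] [CharZero F]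
    (A : Matrix (Fin n) (Fin n) (MvPolynomial (Fin m × Fin m) F))
    (hA : ∀ i j, (A i j).totalDegree ≤ 1)
    (hdet : A.det = Matrix.permanent (Matrix.of fun i j => X (i, j))) :
    lb m ≤ (∑ v, (A.map (coeff (Finsupp.single v 1))).rank : ℕ) := by
  classical
  set R := ∑ v, (A.map (coeff (Finsupp.single v 1))).rank with hR
  rcases Nat.eq_zero_or_pos R with h0 | hpos
  · exfalso
    have h1 := det_eq_C A hA (hR.symm.trans h0)
    rw [hdet] at h1
    exact perm_ne_C hm _ h1
  · obtain ⟨B, hBdeg, hBdet⟩ := compress_poly hpos A hA hR.symm.le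
    exact L5helper59.NC.field_bound_of hB m R hm B hBdeg (hBdet.trans hdet)

end L5helper11.Cub
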